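import Pool.Agent.H0.Bowl.Proof

open MeasureTheory Pool.Agent.H0.Bowl

namespace Pool.Agent.Results.MP_eb4cdf_pr.BowlDisproof

/-- The statement of the question is false.  Moreover two jobs and three stations already refute
it: there are a law of the works and an allocation `t` that is strictly better than every
bowl-shaped allocation, for unlimited buffers, for manufacturing blocking with every buffer size
and for communications blocking with every buffer size `b ≥ 1`. -/
theorem result : ¬ BowlStatement ∧
    ∃ μ : Measure ℝ, IsProbabilityMeasure μ ∧ μ (Set.Iio 0) = 0 ∧ Integrable (fun x => x) μ ∧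
      ∃ t : Fin 3 → ℝ, IsAllocation t ∧
        ∀ (R : Regime) (b : ℕ), (R = Regime.communications → 1 ≤ b) →
          ∀ s : Fin 3 → ℝ, IsAllocation s → IsBowl s → F R b 2 3 μ t < F R b 2 3 μ s := by
  refine ⟨fun h => ?_, law, inferInstance, law_neg, law_int, better, better_alloc,
    fun R b hR s hs hb => bowl_beaten R b hR s hs hb⟩
  obtain ⟨s, hs, hb⟩ := h 2 3 (by norm_num) (by norm_num) law inferInstance law_neg law_int
    Regime.unlimited 0
  exact absurd (hs.2 better better_alloc)
    (not_le.mpr (bowl_beaten Regime.unlimited 0 (fun h => nomatch h) s hs.1 hb))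

end Pool.Agent.Results.MP_eb4cdf_pr.BowlDisproof
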